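import Pool.Agent.H58.Taut2

namespace Pool.Agent.Results.MP_cd2c38_gt.Q1Yes
open Pool.Agent.H58.Taut
open scoped RealInnerProductSpace

def G (k : ℝ) (x : E 4) : E 7 :=
  !₂[k * (4 * r12 x), k * (4 * r13 x), k * (4 * r22 x), k * (4 * r23 x), k * (5 * r32 x), k * (5 * r33 x), k * (3 * r31 x)]

theorem result : ∃ F, TautRP3 6 F := by
  obtain ⟨k, hk2⟩ : ∃ k : ℝ, k ^ 2 * 41 = 1 :=
    ⟨√(1 / 41), by rw [Real.sq_sqrt (by norm_num)]; norm_num⟩
  have hk : k ≠ 0 := by rintro rfl; norm_num at hk2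
  refine ⟨G k, taut_of (fun i => ?_) (fun x => ?_) (fun x y hxy h => ?_) fun v c h => ?_⟩
  · fin_cases i
    exacts [(q12.smul 4).smul k, (q13.smul 4).smul k, (q22.smul 4).smul k, (q23.smul 4).smul k, (q32.smul 5).smul k, (q33.smul 5).smul k, (q31.smul 3).smul k]
  · rw [nsq, EuclideanSpace.norm_sq_eq]
    simp only [Fin.sum_univ_succ, G, Real.norm_eq_abs, sq_abs]
    simp only [r12, r13, r21, r22, r23, r31, r32, r33]
    simp
    linear_combination (x 0 ^ 2 + x 1 ^ 2 + x 2 ^ 2 + x 3 ^ 2) ^ 2 * hk2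
  · have a12 : r12 x = r12 y := by simpa [G, hk] using congrArg (· 0) h
    have a13 : r13 x = r13 y := by simpa [G, hk] using congrArg (· 1) h
    have a22 : r22 x = r22 y := by simpa [G, hk] using congrArg (· 2) h
    have a23 : r23 x = r23 y := by simpa [G, hk] using congrArg (· 3) h
    have a32 : r32 x = r32 y := by simpa [G, hk] using congrArg (· 4) h
    have a33 : r33 x = r33 y := by simpa [G, hk] using congrArg (· 5) h
    exact cols_inj hxy a12 a13 a22 a23 a32 a33
  · have b0 := pts h 1 0 0 0 (by norm_num)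
    have b1 := pts h 0 1 0 0 (by norm_num)
    have b2 := pts h 0 0 1 0 (by norm_num)
    have b3 := pts h 0 0 0 1 (by norm_num)
    have b4 := pts h (3 / 5) (4 / 5) 0 0 (by norm_num)
    have b5 := pts h (3 / 5) 0 (4 / 5) 0 (by norm_num)
    have b6 := pts h (3 / 5) 0 0 (4 / 5) (by norm_num)
    have b7 := pts h 0 (3 / 5) (4 / 5) 0 (by norm_num)
    have b8 := pts h 0 (3 / 5) 0 (4 / 5) (by norm_num)
    have b9 := pts h 0 0 (3 / 5) (4 / 5) (by norm_num)
    simp [PiLp.inner_apply, Fin.sum_univ_succ, G, r12, r13, r21, r22, r23, r31, r32, r33]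
      at b0 b1 b2 b3 b4 b5 b6 b7 b8 b9
    have : k • v = 0 := by
      ext i; fin_cases i <;> simp only [PiLp.smul_apply, smul_eq_mul, PiLp.zero_apply] <;>
        simp only [Fin.reduceFinMk, Fin.zero_eta, Fin.mk_one] <;> linarith
    simpa [hk] using this

end Pool.Agent.Results.MP_cd2c38_gt.Q1Yes
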